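import Mathlib
import Pool.Agent.X253.C3.Fam2
import Pool.Agent.X253.CF.Ex

/-!
# Infinite families of cubic twists over `ℚ(√-3)` with the `3`-part of the leading-term formula

`K` is the field of third roots of unity and `E_D : y² + D y = x³`.  Let `D` in `𝓞 K` be cube-free,
`1` modulo `3`, with norm not `1` modulo `9`, such that `E_D(K)` is finite and
`Ш(E_D / K)[3^∞] = 0`; these `D` are exactly the proportion
`∏_{i ≥ 0} (1 - 3^{-(2 i + 1)}) = 0.639...` of all the `D` of the class, ordered by the norm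
(`Pool/Agent/X253/CF`).  Then there is an infinite set `Q` of primes of `𝓞 K` such that for all finite subsets `S`
of `Q` and all exponents `m_l = 0, 1, 2` the cubic twist `E_{D'}` of `E_D` by `∏ l ^ m_l`, `l ∈ S`, that is
`D' = D ∏ l ^ m_l`, is again of this kind: `E_{D'}(K)` is finite, `Ш(E_{D'} / K)[3^∞] = 0`, the function
`L(E_{D'} / K, s)` is entire, `L(E_{D'} / K, 1) ≠ 0`, and the quotient
`L(E_{D'} / K, 1) √|Δ(K)| #E_{D'}(K)² / (2 A ∏ c_v)`, which is `#Ш` according to the conjecture, is a unit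
at every valuation of `ℂ` above `3`.

The group `Sha` of the library is the group of the continuous cocycles of the absolute Galois group
of `K` with values in the points over an algebraic closure of `K` that are coboundaries at all the
places, modulo the coboundaries.  `NonsingRed v W P` says that `P` is the point at infinity or that
one of the partial derivatives of the equation at `P` is not in the maximal ideal.

The primes of `Q` come from Chebotarev's theorem: `l` is in `Q` if `N(l) = 1` modulo `9`, one prime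
divisor `π` of `D` is not a cube modulo `l`, and the other prime divisors of `D` and the previous
elements of `Q` are cubes modulo `l`; then the weighted Laplacian of the cubic residue symbols of `D'` has
no kernel but the constants, by the reciprocity law.
-/

set_option autoImplicit false

namespace Pool.Agent.Results.MP_9ab903_nt.CubicFamilies

open NumberField IsDedekindDomain WeierstrassCurve
open Pool.Agent.TH841.NF.D (Sha)
open Pool.Agent.Y696 (NonsingRed)
open scoped Classical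

/-- The curve `E_D : y² + D y = x³`. -/
def curve {K : Type} [Field K] (D : K) : WeierstrassCurve K := ⟨0, 0, D, 0, 0⟩

variable {K : Type} [Field K] [NumberField K]

/-- `D` is cube-free and `1` modulo `3`, and its norm is not `1` modulo `9`. -/
def InClass (D : 𝓞 K) : Prop :=
  (3 : 𝓞 K) ∣ D - 1 ∧ (∀ p : 𝓞 K, Prime p → ¬ p ^ 3 ∣ D) ∧ ¬ (9 : ℤ) ∣ Algebra.norm ℤ D - 1

/-- The equation `W` is minimal at every finite place `v`, the number `c v` is the index of the
group of the points of nonsingular reduction in `W(K_v)` (the Tamagawa number), and `c v = 1` for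
all but finitely many `v`. -/
def IsTamagawa (W : WeierstrassCurve K) (c : HeightOneSpectrum (𝓞 K) → ℕ) : Prop :=
  (∀ v : HeightOneSpectrum (𝓞 K),
    IsMinimal (v.adicCompletionIntegers K) (W.baseChange (v.adicCompletion K)) ∧
    ∃ H : AddSubgroup (W.baseChange (v.adicCompletion K)).toAffine.Point,
      (∀ P, P ∈ H ↔ NonsingRed Valued.v (W.baseChange (v.adicCompletion K)) P) ∧
      H.index = c v) ∧
  {v | c v ≠ 1}.Finite

/-- `E_D(K)` is finite and the `3`-primary part of `Ш(E_D / K)` is trivial. -/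
def FiniteAndTrivial (D : 𝓞 K) : Prop :=
  Finite (curve (D : K)).toAffine.Point ∧ ∀ (n : ℕ) (x : Sha (curve (D : K))), 3 ^ n • x = 0 → x = 0

/-- `E_D(K)` is finite of order divisible by `3` and not by `9`, the `3`-primary part of
`Ш(E_D / K)` is trivial; `Lf` is an entire function equal to `L(E_D / K, s)` for `Re s > 3 / 2`, and
`Lf 1 ≠ 0`; and for every embedding `σ` of `K` and every pair of periods `ω₁, ω₂` of a lattice `Λ`
with `g₂ = 0`, `g₃ = - σ(D)²` (the period lattice of `E_D`; `A = |Im (conj ω₁ ω₂)|` is the area of a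
period parallelogram; such a `Λ` exists) the number `Lf 1 √|Δ(K)| #E_D(K)² / (2 A ∏ c_v)` is a unit at
every valuation `v` of `ℂ` above `3`. -/
def ThreePart (D : 𝓞 K) : Prop :=
  FiniteAndTrivial D ∧
  padicValNat 3 (Nat.card (curve (D : K)).toAffine.Point) = 1 ∧
  ∃ (Lf : ℂ → ℂ) (c : HeightOneSpectrum (𝓞 K) → ℕ),
    Differentiable ℂ Lf ∧
    (∀ s : ℂ, 3 / 2 < s.re →
      LSeriesSummable ((fun n : ℤ => (n : ℂ)) ∘ (curve (D : K)).LFunction) s ∧
        Lf s = (curve (D : K)).LSeries s) ∧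
    Lf 1 ≠ 0 ∧
    IsTamagawa (curve (D : K)) c ∧
    ∀ σ : K →+* ℂ, (∃ Λ : PeriodPair, Λ.g₂ = 0 ∧ Λ.g₃ = -(σ D) ^ 2) ∧
      ∀ Λ : PeriodPair, Λ.g₂ = 0 → Λ.g₃ = -(σ D) ^ 2 →
        ∀ (Γ : Type) [LinearOrderedCommGroupWithZero Γ] (v : Valuation ℂ Γ), v 3 < 1 →
          v (Lf 1 * (Real.sqrt |(discr K : ℝ)| : ℝ) *
            (Nat.card (curve (D : K)).toAffine.Point : ℂ) ^ 2 /
            (((2 * |((starRingEnd ℂ) Λ.ω₁ * Λ.ω₂).im| : ℝ) : ℂ) * ((∏ᶠ w, c w : ℕ) : ℂ))) = 1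

/-- There is an infinite set `Q` of primes `l = 1` modulo `3` of norm `1` modulo `9` that do not
divide `D`, such that `D' = D ∏ l ^ m_l`, `l ∈ S`, is in the class and satisfies `ThreePart` for all
finite subsets `S` of `Q` and all exponents `m_l = 0, 1, 2`. -/
def HasFamily (D : 𝓞 K) : Prop :=
  ∃ Q : Set (𝓞 K), Q.Infinite ∧
    (∀ l ∈ Q, Prime l ∧ (3 : 𝓞 K) ∣ l - 1 ∧ (9 : ℤ) ∣ Algebra.norm ℤ l - 1 ∧ ¬ l ∣ D) ∧
    ∀ S : Finset (𝓞 K), (∀ l ∈ S, l ∈ Q) → ∀ m : 𝓞 K → ℕ, (∀ l ∈ S, m l < 3) →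
      InClass (D * ∏ l ∈ S, l ^ m l) ∧ ThreePart (D * ∏ l ∈ S, l ^ m l)

/-- the formula from the law of the library -/
lemma threePart_of [IsCyclotomicExtension {3} ℚ K] {D : 𝓞 K} (hD : InClass D)
    (hT : FiniteAndTrivial D) : ThreePart D := by
  obtain ⟨⟨j, hj⟩, hdisc⟩ := Pool.Agent.Y455.CTK.jex K
  obtain ⟨n, π, e, hdt, e1, hn, h9⟩ := Pool.Agent.X253.C3.cls_dt j hj hD
  subst e1
  have hk := (Pool.Agent.X253.C3.tri_iffE j hdt h9).1 hT
  obtain ⟨hfin, hcard⟩ := Pool.Agent.X253.C3.mw_card j hdt hk h9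
  obtain ⟨h1, h2, Lf, c, h3, h4, h5, h6, h7⟩ := Pool.Agent.X253.C3.law_ofE j hdisc hdt h9
  refine ⟨hT, hcard, Lf, c, h3, h4, h5 hT, h6, fun σ => ?_⟩
  obtain ⟨h8, h10⟩ := h7 σ
  refine ⟨h8, fun Λ k2 k3 Γ _ v hv => ?_⟩
  obtain ⟨ρ, hρ, hv'⟩ := h10 Λ k2 k3
  obtain ⟨-, hv2⟩ := hv' Γ v hv
  have hρ1 : v ρ = 1 := hv2.2 hT
  have htors : Pool.Agent.Y696.CTK.tors (j (Pool.Agent.Y703.CT.pD π e)) =
      Nat.card (curve ((j (Pool.Agent.Y703.CT.pD π e) : 𝓞 K) : K)).toAffine.Point := by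
    unfold Pool.Agent.Y696.CTK.tors
    have : AddCommGroup.torsion (Pool.Agent.Y696.CTK.ED
        ((j (Pool.Agent.Y703.CT.pD π e) : 𝓞 K) : K)).toAffine.Point = ⊤ := by
      rw [eq_top_iff]
      intro x _
      exact isOfFinAddOrder_of_finite x
    rw [this]
    exact Nat.card_congr AddSubgroup.topEquiv.toEquiv
  rw [htors] at hρ
  have hL := h5 hT
  set A : ℂ := ((2 * |((starRingEnd ℂ) Λ.ω₁ * Λ.ω₂).im| : ℝ) : ℂ) with hA
  set P : ℂ := ((∏ᶠ w, c w : ℕ) : ℂ) with hP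
  set d : ℂ := ((Real.sqrt |(discr K : ℝ)| : ℝ) : ℂ) with hd
  set N : ℂ := (Nat.card (curve ((j (Pool.Agent.Y703.CT.pD π e) : 𝓞 K) : K)).toAffine.Point : ℂ)
    with hN
  have hAP : A * P ≠ 0 := by
    intro h0
    rw [h0, zero_div, mul_zero] at hρ
    exact hL hρ
  have hdN : d * N ^ 2 ≠ 0 := by
    intro h0
    rw [h0, div_zero, mul_zero] at hρ
    exact hL hρ
  have hfinal : Lf 1 * d * N ^ 2 / (A * P) = ρ := by
    rw [hρ, mul_assoc, mul_assoc, div_mul_cancel₀ _ hdN, mul_div_assoc, div_self hAP, mul_one]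
  rw [hfinal]
  exact hρ1

/-- **Infinite families.** Every cube-free `D` of the class with `E_D(K)` finite and
`Ш(E_D / K)[3^∞] = 0` has a family; they are exactly
the proportion `0.639...` of the class. -/
theorem result (K : Type) [Field K] [NumberField K] [IsCyclotomicExtension {3} ℚ K] :
    (∀ D : 𝓞 K, InClass D → FiniteAndTrivial D → HasFamily D) ∧
    (∃ c : ℝ, 0 < c ∧ ∃ X₀ : ℕ, ∀ X : ℕ, X₀ ≤ X →
      c * X ≤ ({D : 𝓞 K | Algebra.norm ℤ D ≤ X ∧ InClass D}.ncard : ℝ)) ∧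
    Filter.Tendsto (fun X : ℕ =>
      ({D : 𝓞 K | Algebra.norm ℤ D ≤ X ∧ InClass D ∧ FiniteAndTrivial D}.ncard : ℝ) /
        ({D : 𝓞 K | Algebra.norm ℤ D ≤ X ∧ InClass D}.ncard : ℝ))
      Filter.atTop (nhds (∏' i : ℕ, (1 - (1 / 3 : ℝ) ^ (2 * i + 1)))) ∧
    0.639 < ∏' i : ℕ, (1 - (1 / 3 : ℝ) ^ (2 * i + 1)) ∧
    ∏' i : ℕ, (1 - (1 / 3 : ℝ) ^ (2 * i + 1)) < 0.6391 := by
  refine ⟨fun D hD hT => ?_, Pool.Agent.X253.CF.prop_exact K⟩
  obtain ⟨Q, h1, h2, h3⟩ := Pool.Agent.X253.C3.fam_K K D hD hT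
  exact ⟨Q, h1, h2, fun S hS m hm => ⟨(h3 S hS m hm).1,
    threePart_of (h3 S hS m hm).1 (h3 S hS m hm).2⟩⟩

end Pool.Agent.Results.MP_9ab903_nt.CubicFamilies
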