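import Pool.Agent.W187.UR.NF
import Pool.Agent.TH942.Ner

/-!
# The strong conjecture of Birch and Swinnerton-Dyer without regulator and torsion

`K` is any number field and `E : y² = x³ + a x + b` any elliptic curve over `K` (every elliptic curve over `K` has
such an equation). The only hypothesis is that the `L`-series of `E` (Mathlib's, the full Euler product over all
finite places, bad ones included) has a continuation `F` which is meromorphic at the real points of `[1, 2]` (this
is a part of (i) in the question). Nothing is assumed on the zeros and poles of `F`.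

For `γ > π / 2` and `T > 0` let

`S_γ(T) = ∑_v ∑_{k ≥ 1} - (α_v ^ k + β_v ^ k) q_v ^ (i k γ / T) / (k q_v ^ k Γ(1 + k log q_v / T))`,

an absolutely convergent series over the finite places of `K`, where `(1 - α_v X) (1 - β_v X)` is the local polynomial
of `E`; for good `v` one has `- (α_v ^ k + β_v ^ k) = #E(𝔽_q) - q - 1`, `q = q_v ^ k`. So `exp S_γ(T)` is a smoothed and
rotated form of the product of the `#E(k_v) / q_v` over the places with `q_v ≤ e ^ T` of Birch and Swinnerton-Dyer: the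
numbers of the points of `E` modulo the places. Let `R(T)` be the number of the GLOBAL points of height at most `T`,

`R(T) = #{P ∈ E(K) : h_K(x(P)) ≤ T}`,

`r = rank E(K)`, `#T` the order of the torsion subgroup of `E(K)`, `Reg` the regulator (defined with the canonical
height `lim 4^{-n} h_K(x(2^n P))`, as in the question), `V_r = π^(r/2) / Γ(r/2 + 1)` the volume of the unit ball in
`ℝ^r`, and `Λ_γ = ∫_0^∞ (e^{-t} - e^{iγt} / Γ(1 + t)) dt / t`. It is shown:

* if `F` has order `m` and leading coefficient `l` at `1`, then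
  `T^(r - m) exp S_γ(T) / R(T)² → exp (- m Λ_γ) Reg / (l (#T)² V_r²)`;
* for every real `A ≠ 0`: `F` has order `r` and leading coefficient `A Reg / (#T)²` at `1` if and only if
  `exp S_γ(T) / R(T)² → exp (- r Λ_γ) / (A V_r²)`;
* `ord_{s=1} F = r` if and only if `|exp S_γ(T)|` and `R(T)²` have the same order of magnitude; `ord_{s=1} F > r`
  (`< r`) if and only if their quotient tends to infinity (to zero).

For `A = Ω(E) |Sha(E)| ∏ c_v / √|Δ(K)|` the second statement says that the formula (with (i)) of the strong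
conjecture of Birch and Swinnerton-Dyer is EQUIVALENT to a statement in which neither the regulator, nor the torsion, nor
the `L`-function appears: the (smoothed) product of the local numbers of points, divided by the square of the
number of the global points of height `≤ T`, converges to `exp (- r Λ_γ) √|Δ(K)| / (V_r² Ω(E) |Sha(E)| ∏ c_v)`. There is
no condition on the zeros of `F`.

Proof. The law for `S_γ(T)` is proved in the imported files (`Pool.Agent.W187.UR`), the asymptotic formula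
`R(T) ∼ #T V_r T^(r/2) / √Reg` of Néron with his canonical height in `Pool.Agent.TH942.Ner`.
-/

set_option autoImplicit false

open IsDedekindDomain NumberField Filter Topology Classical

namespace Pool.Agent.Results.MP_9ab903_nt.RegulatorFree

variable {K : Type} [Field K] [NumberField K]

/-- The curve `y² = x³ + a x + b`. -/
def curve (a b : K) : WeierstrassCurve K := { a₁ := 0, a₂ := 0, a₃ := 0, a₄ := a, a₆ := b }

/-- The group `E(K)` of the points of `y² = x³ + a x + b`. -/
abbrev Points (a b : K) : Type := (curve a b).toAffine.Point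

/-- The height `h_K(x(P)) = ∑_v n_v log max (1, |x(P)|_v)` (Mathlib's logarithmic height, relative to `K`), and
`0` for the point at infinity. -/
noncomputable def height {a b : K} : Points a b → ℝ
  | .zero => 0
  | .some x _ _ => Height.logHeight₁ x

/-- The canonical height `lim 4^{-n} h_K(x(2^n P))`. -/
noncomputable def canHeight {a b : K} (P : Points a b) : ℝ :=
  limUnder atTop fun n : ℕ => height ((2 ^ n : ℕ) • P) / 4 ^ n

/-- `⟨P, Q⟩ = (ĥ(P + Q) - ĥ(P) - ĥ(Q)) / 2` -/
noncomputable def pairing {a b : K} (P Q : Points a b) : ℝ :=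
  (canHeight (P + Q) - canHeight P - canHeight Q) / 2

/-- `g` is a basis of `E(K)` modulo torsion. -/
def IsBasis {a b : K} {r : ℕ} (g : Fin r → Points a b) : Prop :=
  ∀ P : Points a b, ∃! n : Fin r → ℤ, IsOfFinAddOrder (P - ∑ i, n i • g i)

/-- The regulator `det (⟨g_i, g_j⟩)`. -/
noncomputable def Reg {a b : K} {r : ℕ} (g : Fin r → Points a b) : ℝ :=
  (Matrix.of fun i j => pairing (g i) (g j)).det

/-- The order of the torsion subgroup. -/
noncomputable def numTorsion (a b : K) : ℕ := Nat.card {P : Points a b // IsOfFinAddOrder P}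

/-- `R(T)`: the number of the points of `E(K)` of height at most `T`. -/
noncomputable def R (a b : K) (T : ℝ) : ℕ := Nat.card {P : Points a b // height P ≤ T}

/-- The volume `π^(r/2) / Γ(r/2 + 1)` of the unit ball in `ℝ^r`. -/
noncomputable def V (r : ℕ) : ℝ := √Real.pi ^ r / Real.Gamma (r / 2 + 1)

/-- `F` is a continuation of the `L`-series of `E` from `Re s > 2` along the real axis to `s = 1`,
which is meromorphic at every real point of `[1, 2]`. -/
def IsContinuation (E : WeierstrassCurve K) (F : ℂ → ℂ) : Prop :=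
  (∀ x : ℝ, 1 ≤ x → x ≤ 2 → MeromorphicAt F (x : ℂ)) ∧ ∀ s : ℂ, 2 < s.re → F s = E.LSeries s

/-- The local polynomial `1 - a_v X + e_v X²` of `E` at `v` (Mathlib): `a_v = q_v + 1 - #E(k_v)` and
`e_v = q_v` for a minimal model with good reduction at `v`, and `e_v = 0` and `a_v = 1`, `-1`, `0` for
split multiplicative, non-split multiplicative, additive reduction. -/
noncomputable def localPoly (E : WeierstrassCurve K) (v : HeightOneSpectrum (𝓞 K)) :
    Polynomial ℤ :=
  (E.baseChange (v.adicCompletion K)).localPolynomial (v.adicCompletionIntegers K)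

/-- The power sums `α ^ n + β ^ n` for a polynomial `1 - a X + e X² = (1 - α X) (1 - β X)`, by the
recursion. -/
def powerSum (P : Polynomial ℤ) : ℕ → ℤ
  | 0 => 2
  | 1 => -P.coeff 1
  | n + 2 => -P.coeff 1 * powerSum P (n + 1) - P.coeff 2 * powerSum P n

/-- `q_v`, the number of elements of the residue field -/
noncomputable def q (v : HeightOneSpectrum (𝓞 K)) : ℝ := (Ideal.absNorm v.asIdeal : ℝ)

/-- The term of `v` and `k = x.2 + 1`:
`- (α_v ^ k + β_v ^ k) q_v ^ (i k γ / T) / (k q_v ^ k Γ(1 + k log q_v / T))`. -/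
noncomputable def term (E : WeierstrassCurve K) (γ T : ℝ) (x : HeightOneSpectrum (𝓞 K) × ℕ) : ℂ :=
  -(powerSum (localPoly E x.1) (x.2 + 1) : ℂ) *
    Complex.exp (γ * ((x.2 + 1) * Real.log (q x.1) / T) * Complex.I) /
      (((x.2 + 1) * q x.1 ^ (x.2 + 1) * Real.Gamma (1 + (x.2 + 1) * Real.log (q x.1) / T) : ℝ) : ℂ)

/-- `S_γ(T)` -/
noncomputable def S (E : WeierstrassCurve K) (γ T : ℝ) : ℂ := ∑' x, term E γ T x

/-- `Λ_γ = ∫_0^∞ (e^{-t} - e^{iγt} / Γ(1 + t)) dt / t` -/
noncomputable def Lambda (γ : ℝ) : ℂ := ∫ t in Set.Ioi (0 : ℝ),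
  (Complex.exp (-(t : ℂ)) - Complex.exp ((γ * t : ℝ) * Complex.I) * ((Real.Gamma (1 + t))⁻¹ : ℝ)) / t

/-- the rank of the group `E(K)` -/
noncomputable def rank (a b : K) : ℕ := Module.finrank ℤ (Points a b)

/-! ### Translation -/

theorem coeff_one (a e : ℤ) : (1 - Polynomial.C a * Polynomial.X + Polynomial.C e *
    Polynomial.X ^ 2 : Polynomial ℤ).coeff 1 = -a := by
  rw [Polynomial.coeff_add, Polynomial.coeff_sub, Polynomial.coeff_C_mul, Polynomial.coeff_C_mul,
    Polynomial.coeff_X_one, Polynomial.coeff_X_pow, Polynomial.coeff_one]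
  norm_num

theorem coeff_two (a e : ℤ) : (1 - Polynomial.C a * Polynomial.X + Polynomial.C e *
    Polynomial.X ^ 2 : Polynomial ℤ).coeff 2 = e := by
  rw [Polynomial.coeff_add, Polynomial.coeff_sub, Polynomial.coeff_C_mul, Polynomial.coeff_C_mul,
    Polynomial.coeff_X, Polynomial.coeff_X_pow, Polynomial.coeff_one]
  norm_num

theorem powerSum_eq (E : WeierstrassCurve K) (v : HeightOneSpectrum (𝓞 K)) (n : ℕ) :
    powerSum (localPoly E v) n = Pool.Agent.W189.LC.psum (Pool.Agent.W189.NF.aV E v)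
      (Pool.Agent.W189.NF.eV E v) n := by
  have h := Pool.Agent.W189.NF.localPolynomial_eq (v.adicCompletionIntegers K)
    (E.baseChange (v.adicCompletion K))
  have h1 : (localPoly E v).coeff 1 = -Pool.Agent.W189.NF.aV E v := by
    unfold localPoly
    rw [h]
    exact coeff_one _ _
  have h2 : (localPoly E v).coeff 2 = Pool.Agent.W189.NF.eV E v := by
    unfold localPoly
    rw [h]
    exact coeff_two _ _
  induction n using Nat.twoStepInduction with
  | zero => simp [powerSum, Pool.Agent.W189.LC.psum]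
  | one => simp [powerSum, Pool.Agent.W189.LC.psum, h1]
  | more n ih1 ih2 =>
    simp only [powerSum, Pool.Agent.W189.LC.psum]
    rw [ih1, ih2, h1, h2]
    ring

theorem term_eq (E : WeierstrassCurve K) (γ T : ℝ) (x : HeightOneSpectrum (𝓞 K) × ℕ) :
    term E γ T x = Pool.Agent.W187.UR.rTerm E γ T x := by
  unfold term Pool.Agent.W187.UR.rTerm Pool.Agent.W189.NF.bsTerm q
  rw [powerSum_eq]
  push_cast
  ring

theorem S_eq (E : WeierstrassCurve K) (γ T : ℝ) : S E γ T = Pool.Agent.W187.UR.rSum E γ T :=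
  tsum_congr fun x => term_eq E γ T x

theorem height_eq {a b : K} (P : Points a b) :
    height P = Pool.Agent.TH942.sht (K := K) (a := a) (b := b) P := by
  cases P with
  | zero =>
    have h : Pool.Agent.TH942.sht (K := K) (a := a) (b := b) (0 : Points a b) = 0 :=
      Pool.Agent.TH942.sht_zero
    exact h.symm
  | some x y h =>
    have e : Pool.Agent.TH942.sht (K := K) (a := a) (b := b)
        (WeierstrassCurve.Affine.Point.some x y h) = Height.logHeight ![x, 1] := rfl
    exact (Height.logHeight₁_eq_logHeight x).trans e.symm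

theorem ell {a b : K} (h : 4 * a ^ 3 + 27 * b ^ 2 ≠ 0) : (curve a b).IsElliptic :=
  Pool.Agent.TH942.sw_ell h

/-! ### The canonical height and Néron's asymptotic formula -/

theorem neron' {a b : K} (hΔ : 4 * a ^ 3 + 27 * b ^ 2 ≠ 0) :
    (∀ P : Points a b, Tendsto (fun n : ℕ => height ((2 ^ n : ℕ) • P) / 4 ^ n) atTop
      (𝓝 (canHeight P))) ∧
    ∀ (r : ℕ) (g : Fin r → Points a b), IsBasis g → 0 < Reg g ∧
      Tendsto (fun T : ℝ => (R a b T : ℝ) / T ^ ((r : ℝ) / 2)) atTop
        (𝓝 (numTorsion a b * V r / √ (Reg g))) := by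
  obtain ⟨q, C, h1, h2, h3, h4, h5⟩ := Pool.Agent.TH942.neron (K := K) hΔ
  have hq : ∀ P : Points a b, canHeight P = q P := by
    intro P
    refine Tendsto.limUnder_eq ((h4 P).congr fun n => ?_)
    rw [height_eq]
    rfl
  refine ⟨fun P => ?_, fun r g hg => ?_⟩
  · rw [hq]
    refine (h4 P).congr fun n => ?_
    rw [height_eq]
    rfl
  · have h6 : Reg g = (Pool.Agent.TH942.gram q g).det := by
      unfold Reg Pool.Agent.TH942.gram pairing
      simp only [hq]
      rfl
    obtain ⟨h7, h8⟩ := h5 (Fin r) g hg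
    rw [h6]
    refine ⟨h7, ?_⟩
    simp only [Fintype.card_fin] at h8
    have h9 : ∀ T : ℝ, R a b T = Nat.card {P : Pool.Agent.TH942.SPt a b //
        Pool.Agent.TH942.sht P ≤ T} := by
      intro T
      unfold R
      simp only [height_eq]
      rfl
    simp only [h9]
    exact h8

theorem V_pos (r : ℕ) : 0 < V r := Pool.Agent.TH942.ballVol_pos r

theorem numTorsion_pos {a b : K} (hΔ : 4 * a ^ 3 + 27 * b ^ 2 ≠ 0) : 0 < numTorsion a b := by
  have hfg : AddGroup.FG (Points a b) := Pool.Agent.TH942.sfg hΔ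
  have h1 : Nonempty {t : Points a b // IsOfFinAddOrder t} := ⟨⟨0, IsOfFinAddOrder.zero⟩⟩
  have h2 : Finite {t : Points a b // IsOfFinAddOrder t} := by
    obtain ⟨q, C, g1, g2, g3, -, -⟩ := Pool.Agent.TH942.neron (K := K) hΔ
    have : {t : Points a b | IsOfFinAddOrder t} ⊆ {P | Pool.Agent.TH942.sht P ≤ C} := by
      intro t ht
      have g9 := Pool.Agent.TH942.q_comb q g2 (ι := Fin 0) (fun i => i.elim0) t ht 0
      simp only [Finset.univ_eq_empty, Finset.sum_empty, zero_add] at g9
      have g10 := abs_le.1 (g3 t)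
      simp only [Set.mem_ofPred_eq]
      linarith
    exact ((Pool.Agent.TH942.sfinite_ht C).subset this).to_subtype
  exact Nat.card_pos

/-- the square of the number of points -/
theorem R_sq {a b : K} (hΔ : 4 * a ^ 3 + 27 * b ^ 2 ≠ 0) {r : ℕ} {g : Fin r → Points a b}
    (hg : IsBasis g) : Tendsto (fun T : ℝ => (R a b T : ℝ) ^ 2 / T ^ r) atTop
      (𝓝 ((numTorsion a b : ℝ) ^ 2 * V r ^ 2 / Reg g)) ∧
      0 < (numTorsion a b : ℝ) ^ 2 * V r ^ 2 / Reg g := by
  obtain ⟨-, h⟩ := neron' hΔ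
  obtain ⟨h1, h2⟩ := h r g hg
  have h3 := h2.pow 2
  have h4 : ((numTorsion a b : ℝ) * V r / √ (Reg g)) ^ 2 =
      (numTorsion a b : ℝ) ^ 2 * V r ^ 2 / Reg g := by
    rw [div_pow, mul_pow, Real.sq_sqrt h1.le]
  rw [h4] at h3
  refine ⟨h3.congr' ?_, ?_⟩
  · filter_upwards [eventually_gt_atTop 0] with T hT
    rw [div_pow]
    congr 1
    rw [← Real.rpow_natCast (T ^ ((r : ℝ) / 2)), ← Real.rpow_mul hT.le, ← Real.rpow_natCast T r]
    congr 1
    push_cast
    ring
  · have := V_pos r
    have h5 : (0 : ℝ) < numTorsion a b := by exact_mod_cast numTorsion_pos hΔ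
    positivity

/-! ### The main theorem -/

/-- **The strong conjecture of Birch and Swinnerton-Dyer over number fields, without regulator and torsion.** -/
theorem result (K : Type) [Field K] [NumberField K] (a b : K) (hΔ : 4 * a ^ 3 + 27 * b ^ 2 ≠ 0)
    (F : ℂ → ℂ) (hF : IsContinuation (curve a b) F) (γ : ℝ) (hγ : Real.pi / 2 < γ) :
    (∀ T : ℝ, 0 < T → Summable fun x => ‖term (curve a b) γ T x‖) ∧
    (∀ P : Points a b, Tendsto (fun n : ℕ => height ((2 ^ n : ℕ) • P) / 4 ^ n) atTop
      (𝓝 (canHeight P))) ∧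
    (∃ (r : ℕ) (g : Fin r → Points a b), IsBasis g) ∧
    ∀ (r : ℕ) (g : Fin r → Points a b), IsBasis g → r = rank a b ∧ 0 < Reg g ∧
      -- the asymptotic formula
      (∃ (m : ℤ) (l : ℝ), meromorphicOrderAt F 1 = m ∧ meromorphicTrailingCoeffAt F 1 = l ∧ l ≠ 0 ∧
        Tendsto (fun T : ℝ => (T : ℂ) ^ ((r : ℤ) - m) *
          (Complex.exp (S (curve a b) γ T) / (R a b T : ℂ) ^ 2)) atTop
          (𝓝 (Complex.exp (-(m * Lambda γ)) * Reg g / (l * (numTorsion a b) ^ 2 * (V r) ^ 2)))) ∧
      -- the strong form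
      (∀ A : ℝ, A ≠ 0 →
        ((meromorphicOrderAt F 1 = ((r : ℤ) : WithTop ℤ) ∧
          meromorphicTrailingCoeffAt F 1 = ((A * Reg g / (numTorsion a b) ^ 2 : ℝ) : ℂ)) ↔
        Tendsto (fun T : ℝ => Complex.exp (S (curve a b) γ T) / (R a b T : ℂ) ^ 2) atTop
          (𝓝 (Complex.exp (-(r * Lambda γ)) / (A * (V r) ^ 2))))) ∧
      -- the rank form
      (meromorphicOrderAt F 1 = ((r : ℤ) : WithTop ℤ) ↔ ∃ c C : ℝ, 0 < c ∧
        ∀ᶠ T : ℝ in atTop, c * (R a b T : ℝ) ^ 2 ≤ ‖Complex.exp (S (curve a b) γ T)‖ ∧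
          ‖Complex.exp (S (curve a b) γ T)‖ ≤ C * (R a b T : ℝ) ^ 2) ∧
      (((r : ℤ) : WithTop ℤ) < meromorphicOrderAt F 1 ↔
        Tendsto (fun T : ℝ => ‖Complex.exp (S (curve a b) γ T)‖ / (R a b T : ℝ) ^ 2) atTop atTop) ∧
      (meromorphicOrderAt F 1 < ((r : ℤ) : WithTop ℤ) ↔
        Tendsto (fun T : ℝ => ‖Complex.exp (S (curve a b) γ T)‖ / (R a b T : ℝ) ^ 2) atTop (𝓝 0)) := by
  have hE : (curve a b).IsElliptic := ell hΔ
  have hF' : Pool.Agent.W189.NF.IsCont (curve a b) F := hF
  obtain ⟨m, l, hm, hl, hl0, -, hlim⟩ := Pool.Agent.W187.UR.nf_rot hF' hγ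
  have hlim' : Tendsto (fun T : ℝ => Complex.exp (S (curve a b) γ T) / (T : ℂ) ^ m) atTop
      (𝓝 (Complex.exp (-(m * Lambda γ)) / l)) := by
    refine hlim.congr fun T => ?_
    rw [S_eq]
  obtain ⟨hcan, -⟩ := neron' hΔ
  refine ⟨fun T hT => ?_, hcan, ?_, fun r g hg => ?_⟩
  · refine (Pool.Agent.W189.NF.bsTerm_summable (curve a b) hT).congr fun x => ?_
    rw [term_eq, Pool.Agent.W187.UR.norm_rTerm]
  · exact Pool.Agent.TH942.exists_basis (Pool.Agent.TH942.sfg hΔ)
  have hrank : rank a b = r :=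
    (Pool.Agent.TH942.card_basis (A := Points a b) hg).trans (Fintype.card_fin r)
  obtain ⟨hreg, -⟩ := (neron' hΔ).2 r g hg
  obtain ⟨hR, hc0⟩ := R_sq hΔ hg
  set c₀ : ℝ := (numTorsion a b : ℝ) ^ 2 * V r ^ 2 / Reg g with hc₀
  have hlc : (l : ℂ) ≠ 0 := by exact_mod_cast hl0
  have htor : (0 : ℝ) < numTorsion a b := by exact_mod_cast numTorsion_pos hΔ
  have hV := V_pos r
  have hRpos : ∀ᶠ T : ℝ in atTop, 0 < (R a b T : ℝ) := by
    filter_upwards [hR.eventually (lt_mem_nhds hc0), eventually_gt_atTop 0] with T h1 h2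
    by_contra h3
    have h4 : (R a b T : ℝ) = 0 := le_antisymm (not_lt.1 h3) (Nat.cast_nonneg _)
    rw [h4] at h1
    simp at h1
  -- the asymptotic formula
  have hmain : Tendsto (fun T : ℝ => (T : ℂ) ^ ((r : ℤ) - m) *
      (Complex.exp (S (curve a b) γ T) / (R a b T : ℂ) ^ 2)) atTop
      (𝓝 (Complex.exp (-(m * Lambda γ)) * Reg g / (l * (numTorsion a b) ^ 2 * (V r) ^ 2))) := by
    have h1 : Tendsto (fun T : ℝ => (((R a b T : ℝ) ^ 2 / T ^ r : ℝ) : ℂ)) atTop (𝓝 (c₀ : ℂ)) :=
      (Complex.continuous_ofReal.tendsto c₀).comp hR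
    have h2 : (c₀ : ℂ) ≠ 0 := by exact_mod_cast hc0.ne'
    have h3 := hlim'.div h1 h2
    have h4 : Complex.exp (-(m * Lambda γ)) / l / (c₀ : ℂ) =
        Complex.exp (-(m * Lambda γ)) * Reg g / (l * (numTorsion a b) ^ 2 * (V r) ^ 2) := by
      rw [hc₀]
      push_cast
      have e1 : (Reg g : ℂ) ≠ 0 := by exact_mod_cast hreg.ne'
      have e2 : (numTorsion a b : ℂ) ≠ 0 := by exact_mod_cast htor.ne'
      have e3 : (V r : ℂ) ≠ 0 := by exact_mod_cast hV.ne'
      field_simp
    rw [h4] at h3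
    refine h3.congr' ?_
    filter_upwards [hRpos, eventually_gt_atTop 0] with T hT1 hT2
    have e1 : (T : ℂ) ≠ 0 := by exact_mod_cast hT2.ne'
    have e2 : (R a b T : ℂ) ≠ 0 := by exact_mod_cast hT1.ne'
    have e3 : (T : ℂ) ^ m ≠ 0 := zpow_ne_zero _ e1
    simp only [Pi.div_apply]
    rw [zpow_sub₀ e1, zpow_natCast]
    push_cast
    field_simp
  set L₀ : ℂ := Complex.exp (-(m * Lambda γ)) * Reg g / (l * (numTorsion a b) ^ 2 * (V r) ^ 2)
    with hL₀
  have hL0 : L₀ ≠ 0 := by
    have e1 : (Reg g : ℂ) ≠ 0 := by exact_mod_cast hreg.ne'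
    have e2 : (numTorsion a b : ℂ) ≠ 0 := by exact_mod_cast htor.ne'
    have e3 : (V r : ℂ) ≠ 0 := by exact_mod_cast hV.ne'
    rw [hL₀]
    exact div_ne_zero (mul_ne_zero (Complex.exp_ne_zero _) e1)
      (mul_ne_zero (mul_ne_zero hlc (pow_ne_zero _ e2)) (pow_ne_zero _ e3))
  -- absolute values
  have hnorm : Tendsto (fun T : ℝ => T ^ ((r : ℤ) - m) *
      (‖Complex.exp (S (curve a b) γ T)‖ / (R a b T : ℝ) ^ 2)) atTop (𝓝 ‖L₀‖) := by
    refine hmain.norm.congr' ?_
    filter_upwards [eventually_gt_atTop 0] with T hT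
    rw [norm_mul, norm_zpow, norm_div, norm_pow, Complex.norm_real, Real.norm_eq_abs,
      abs_of_pos hT, Complex.norm_natCast]
  have hLp : 0 < ‖L₀‖ := norm_pos_iff.2 hL0
  have hQ : ∀ᶠ T : ℝ in atTop, 0 < ‖Complex.exp (S (curve a b) γ T)‖ / (R a b T : ℝ) ^ 2 := by
    filter_upwards [hRpos] with T hT
    have := norm_pos_iff.2 (Complex.exp_ne_zero (S (curve a b) γ T))
    positivity
  -- the three cases
  have c1 : m = (r : ℤ) → Tendsto (fun T : ℝ => ‖Complex.exp (S (curve a b) γ T)‖ /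
      (R a b T : ℝ) ^ 2) atTop (𝓝 ‖L₀‖) := by
    intro h
    refine hnorm.congr fun T => ?_
    rw [h, sub_self, zpow_zero, one_mul]
  have c2 : (r : ℤ) < m → Tendsto (fun T : ℝ => ‖Complex.exp (S (curve a b) γ T)‖ /
      (R a b T : ℝ) ^ 2) atTop atTop := by
    intro h
    have h1 : Tendsto (fun T : ℝ => T ^ (m - (r : ℤ))) atTop atTop := by
      obtain ⟨n, hn⟩ := Int.eq_ofNat_of_zero_le (sub_nonneg.2 h.le)
      rw [hn]
      simp only [zpow_natCast]
      refine tendsto_pow_atTop ?_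
      omega
    refine (h1.atTop_mul_pos hLp hnorm).congr' ?_
    filter_upwards [eventually_gt_atTop 0] with T hT
    rw [← mul_assoc, ← zpow_add₀ hT.ne']
    have : m - (r : ℤ) + ((r : ℤ) - m) = 0 := by ring
    rw [this, zpow_zero, one_mul]
  have c3 : m < (r : ℤ) → Tendsto (fun T : ℝ => ‖Complex.exp (S (curve a b) γ T)‖ /
      (R a b T : ℝ) ^ 2) atTop (𝓝 0) := by
    intro h
    have h1 : Tendsto (fun T : ℝ => T ^ (m - (r : ℤ))) atTop (𝓝 0) :=
      tendsto_zpow_atTop_zero (by linarith)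
    have h2 := h1.mul hnorm
    rw [zero_mul] at h2
    refine h2.congr' ?_
    filter_upwards [eventually_gt_atTop 0] with T hT
    rw [← mul_assoc, ← zpow_add₀ hT.ne']
    have : m - (r : ℤ) + ((r : ℤ) - m) = 0 := by ring
    rw [this, zpow_zero, one_mul]
  have hcast : ∀ {x y : ℤ}, ((x : WithTop ℤ) = (y : WithTop ℤ)) ↔ x = y := fun {x y} =>
    WithTop.coe_inj
  refine ⟨hrank.symm, hreg, ⟨m, l, hm, hl, hl0, hmain⟩, fun A hA => ?_, ?_, ?_, ?_⟩
  · have hAc : (A : ℂ) ≠ 0 := by exact_mod_cast hA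
    have e1 : (Reg g : ℂ) ≠ 0 := by exact_mod_cast hreg.ne'
    have e2 : (numTorsion a b : ℂ) ≠ 0 := by exact_mod_cast htor.ne'
    have e3 : (V r : ℂ) ≠ 0 := by exact_mod_cast hV.ne'
    rw [hm, hl, hcast]
    constructor
    · rintro ⟨h1, h2⟩
      have h3 : Tendsto (fun T : ℝ => Complex.exp (S (curve a b) γ T) / (R a b T : ℂ) ^ 2) atTop
          (𝓝 L₀) := by
        refine hmain.congr fun T => ?_
        rw [h1, sub_self, zpow_zero, one_mul]
      have h4 : L₀ = Complex.exp (-(r * Lambda γ)) / (A * (V r) ^ 2) := by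
        rw [hL₀, h1, h2]
        push_cast
        field_simp
      rwa [h4] at h3
    · intro h1
      set B : ℂ := Complex.exp (-(r * Lambda γ)) / (A * (V r) ^ 2) with hB
      have hB0 : B ≠ 0 := div_ne_zero (Complex.exp_ne_zero _) (mul_ne_zero hAc (pow_ne_zero _ e3))
      have h2 : Tendsto (fun T : ℝ => ‖Complex.exp (S (curve a b) γ T)‖ / (R a b T : ℝ) ^ 2) atTop
          (𝓝 ‖B‖) := by
        refine h1.norm.congr fun T => ?_
        rw [norm_div, norm_pow, Complex.norm_natCast]
      have h3 : m = (r : ℤ) := by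
        rcases lt_trichotomy m (r : ℤ) with h | h | h
        · exact absurd (tendsto_nhds_unique h2 (c3 h)) (norm_ne_zero_iff.2 hB0)
        · exact h
        · exact absurd h2 (not_tendsto_nhds_of_tendsto_atTop (c2 h) _)
      have h4 : L₀ = B := by
        refine tendsto_nhds_unique ?_ h1
        refine hmain.congr fun T => ?_
        rw [h3, sub_self, zpow_zero, one_mul]
      refine ⟨h3, ?_⟩
      have h5 : Complex.exp (-((r : ℂ) * Lambda γ)) ≠ 0 := Complex.exp_ne_zero _
      rw [hL₀, hB, h3] at h4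
      push_cast at h4 ⊢
      rw [div_eq_div_iff (mul_ne_zero (mul_ne_zero hlc (pow_ne_zero _ e2)) (pow_ne_zero _ e3))
        (mul_ne_zero hAc (pow_ne_zero _ e3))] at h4
      have h6 : (Complex.exp (-((r : ℂ) * Lambda γ)) * (V r : ℂ) ^ 2) * (Reg g * A) =
          (Complex.exp (-((r : ℂ) * Lambda γ)) * (V r : ℂ) ^ 2) * (l * (numTorsion a b : ℂ) ^ 2) := by
        linear_combination h4
      have h7 := mul_left_cancel₀ (mul_ne_zero h5 (pow_ne_zero 2 e3)) h6
      rw [eq_div_iff (pow_ne_zero 2 e2), ← h7]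
      ring
  · rw [hm, hcast]
    constructor
    · intro h
      have h1 := c1 h
      refine ⟨‖L₀‖ / 2, 2 * ‖L₀‖, by positivity, ?_⟩
      filter_upwards [h1.eventually (lt_mem_nhds (half_lt_self hLp)),
        h1.eventually (gt_mem_nhds (by linarith : ‖L₀‖ < 2 * ‖L₀‖)), hRpos] with T e1 e2 e3
      have e4 : 0 < (R a b T : ℝ) ^ 2 := by positivity
      rw [lt_div_iff₀ e4] at e1
      rw [div_lt_iff₀ e4] at e2
      exact ⟨e1.le, e2.le⟩
    · rintro ⟨c, C, hc, h⟩
      rcases lt_trichotomy m (r : ℤ) with h1 | h1 | h1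
      · exfalso
        obtain ⟨T, e1, e2, e3⟩ := (((c3 h1).eventually (gt_mem_nhds hc)).and (h.and hRpos)).exists
        rw [div_lt_iff₀ (by positivity)] at e1
        linarith [e2.1]
      · exact h1
      · exfalso
        obtain ⟨T, e1, e2, e3⟩ := (((c2 h1).eventually_gt_atTop C).and (h.and hRpos)).exists
        rw [lt_div_iff₀ (by positivity)] at e1
        linarith [e2.2]
  · rw [hm, WithTop.coe_lt_coe]
    constructor
    · exact c2
    · intro h
      rcases lt_trichotomy m (r : ℤ) with h1 | h1 | h1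
      · exact absurd (c3 h1) (not_tendsto_nhds_of_tendsto_atTop h _)
      · exact absurd (c1 h1) (not_tendsto_nhds_of_tendsto_atTop h _)
      · exact h1
  · rw [hm, WithTop.coe_lt_coe]
    constructor
    · exact c3
    · intro h
      rcases lt_trichotomy m (r : ℤ) with h1 | h1 | h1
      · exact h1
      · exact absurd (tendsto_nhds_unique (c1 h1) h) hLp.ne'
      · exact absurd h (not_tendsto_nhds_of_tendsto_atTop (c2 h1) _)

end Pool.Agent.Results.MP_9ab903_nt.RegulatorFree
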