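import Mathlib
import Pool.Agent.Y698.SG.Fj
import Pool.Agent.Y698.SG.Ug
import Pool.Agent.Y698.SG.Uj
import Pool.Agent.Y698.SG.Dwc
import Pool.Agent.Y698.SG.Ebb
import Pool.Agent.X99.C49.KR
import Pool.Agent.X99.C49.Fin

/-!
# The formula of Birch and Swinnerton-Dyer modulo two for many twists of `X_0(49)` over many fields

`R` is any finite set of primes `r ≡ 1 mod 4` which are inert in `ℚ(√-7)`, `n_r ≥ 1`, and `K_r` is the
subfield of degree `2 ^ n_r` of `ℚ(ζ_r)`, for `r ∈ R`. `E_D` is the quadratic twist by `D` of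
`X_0(49) : y² + x y = x³ - x² - 2 x - 1`, and

`z(D, K) = √|Disc K| #E_D(K)_tors² L(E_D/K, 1) / (Ω ∏ c_v)`,

which is zero or the order of `Ш(E_D/K)` according to the conjecture. `D` runs through the class of the
odd squarefree positive integers prime to `R` whose prime factors are `1` modulo `4`, split completely
in all the fields `K_r` if they split in `ℚ(√-7)`, and have Frobenius elements of order one or two in all
the fields `K_r` otherwise. The class is closed under `star m D` = the squarefree part of `m D` (the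
twist of `E_D` by `m`). For every `D` of the class exactly one of the following holds.

* Over ALL the fields `K_r` (`r ∈ R`): `L(E_D/K_r, 1) ≠ 0`, `E_D(K_r)` is finite,
  `Ш(E_D/K_r)[2^∞] = 0`, and `z(D, K_r)` is a unit at all the primes above two: the formula holds at
  the primes above two, and both its sides are odd.
* Over ALL the fields `K_r`: `z(D, K_r)` is integral at the primes above two and divisible by all of
  them, and `E_D(K_r)` is infinite or `Ш(E_D/K_r)` has an element of order two: both sides are even.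

For any two finite disjoint subsets `G`, `H` of the class the curves `E_{star m D}` are in the first case
for all `m ∈ G` and in the second case for all `m ∈ H` for a proportion of exactly
`c^{#G} (1 - c)^{#H}` of the `D` of the class ordered by size, `c = ∏_{i ≥ 0} (1 - 2^{-(2 i + 1)})`:
for different fields of this kind the formulas modulo two are equivalent to each other, and for
different twists they are asymptotically independent.

Proof. The values and the descent over `K` are those of the teams of `Pool/Agent/Y698`. The joint law is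
`Pool/Agent/X99/GJ`, for matrices of quadratic residue symbols with rows indexed by the prime factors of
`D` in arbitrary classes modulo an arbitrary `N`; here `N = 28 ∏ r`, and the classes of the rows form a
subgroup (`Pool/Agent/X99/C49/KR`).
-/

set_option autoImplicit false

open Finset NumberField NumberField.InfinitePlace IsDedekindDomain WeierstrassCurve MeasureTheory

namespace Pool.Agent.Results.MP_9ab903_nt.SimultaneousTwistsCyclicFields

open Pool.Agent.TH841.NF.D (Sha)
open Pool.Agent.TH841.SH.D (Pt)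

/-- For `D ≡ 1 mod 4` the quadratic twist by `D` of the elliptic curve
`X_0(49) : y² + x y = x³ - x² - 2 x - 1`:
the curve `y² + x y = x³ - (3 D + 1) / 4 x² - 2 D² x - D³`. -/
def twist (D : ℕ) : WeierstrassCurve ℤ := ⟨1, -((3 * D + 1) / 4), 0, -2 * D ^ 2, -D ^ 3⟩

/-- The curve given by the equation of `W` over the ring `R`. -/
abbrev base (W : WeierstrassCurve ℤ) (R : Type) [CommRing R] : WeierstrassCurve R :=
  W.map (Int.castRingHom R)

section

variable {K : Type} [Field K] [NumberField K]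

/-- The equation is minimal at the finite place `v` of `K`: no change of variables over `K` that
keeps the coefficients integral at `v` decreases the order of the discriminant. -/
def MinimalAt (W : WeierstrassCurve K) (v : HeightOneSpectrum (𝓞 K)) : Prop :=
  ∀ C : VariableChange K, v.valuation K (C • W).a₁ ≤ 1 → v.valuation K (C • W).a₂ ≤ 1 →
    v.valuation K (C • W).a₃ ≤ 1 → v.valuation K (C • W).a₄ ≤ 1 → v.valuation K (C • W).a₆ ≤ 1 →
    v.valuation K (C • W).Δ ≤ v.valuation K W.Δ

/-- `W⁰(K_v)`, the group of the points of `W` over the completion `K_v` with nonsingular reduction: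
the point at infinity and the points `(x, y)` where `x` is not integral, or one of the partial
derivatives of `y² + a₁ x y + a₃ y - x³ - a₂ x² - a₄ x - a₆` is a unit at `(x, y)`.
Here `Pt W K_v` is the group of the points of `W` over `K_v`. -/
noncomputable def nonsing (W : WeierstrassCurve K) (v : HeightOneSpectrum (𝓞 K)) :
    AddSubgroup (Pt W (v.adicCompletion K)) :=
  AddSubgroup.closure {P | ∀ x y h, P = Affine.Point.some x y h →
    1 < Valued.v x ∨
    Valued.v ((W.baseChange (v.adicCompletion K)).a₁ * y -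
      (3 * x ^ 2 + 2 * (W.baseChange (v.adicCompletion K)).a₂ * x +
        (W.baseChange (v.adicCompletion K)).a₄)) = 1 ∨
    Valued.v (2 * y + (W.baseChange (v.adicCompletion K)).a₁ * x +
      (W.baseChange (v.adicCompletion K)).a₃) = 1}

/-- The Tamagawa number `c_v = [W(K_v) : W⁰(K_v)]` of a minimal equation. -/
noncomputable def c (W : WeierstrassCurve K) (v : HeightOneSpectrum (𝓞 K)) : ℕ :=
  (nonsing W v).index

/-- The product of the Tamagawa numbers. -/
noncomputable def Tam (W : WeierstrassCurve K) : ℕ := ∏ᶠ v : HeightOneSpectrum (𝓞 K), c W v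

/-- The 2-primary part of the Tate-Shafarevich group over `K`. -/
def Sha2 (W : WeierstrassCurve K) : Set (Sha W) := {x | ∃ n : ℕ, 2 ^ n • x = 0}

end

/-- `4 x³ + b₂ x² + 2 b₄ x + b₆ = (2 y + a₁ x + a₃)²`. -/
def cubic (W : WeierstrassCurve ℤ) {R : Type} [CommRing R] (x : R) : R :=
  4 * x ^ 3 + W.b₂ * x ^ 2 + 2 * W.b₄ * x + W.b₆

/-- `∫_{W(ℝ)} |ω|` with `ω = dx / (2 y + a₁ x + a₃)`, as an integral over `x`: two real points lie
over each `x` with `cubic x > 0`. -/
noncomputable def realPeriod (W : WeierstrassCurve ℤ) : ℝ :=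
  2 * ∫ x in {x : ℝ | 0 < cubic W x}, 1 / √(cubic W x)

/-- `2 ∫_{W(ℂ)} |ω ∧ ω̄|`, where `|ω ∧ ω̄| = du dv` in a local parameter `z = u + i v` with
`dz = ω`, as an integral over `x`: two points lie over a general `x`, and `|ω ∧ ω̄|` is the area
element of the plane of `x` divided by `|cubic x|`. -/
noncomputable def complexPeriod (W : WeierstrassCurve ℤ) : ℝ := 2 * (2 * ∫ x : ℂ, 1 / ‖cubic W x‖)

/-- `Ω_{W/K}`. -/
noncomputable def Omega (K : Type) [Field K] [NumberField K] (W : WeierstrassCurve ℤ) : ℝ :=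
  realPeriod W ^ nrRealPlaces K * complexPeriod W ^ nrComplexPlaces K

open Classical in
/-- The order of the torsion subgroup of `W(K)`. -/
noncomputable def torsOrder (K : Type) [Field K] [NumberField K] (W : WeierstrassCurve ℤ) : ℕ :=
  Nat.card (AddCommGroup.torsion (base W K).toAffine.Point)

/-- The order of the Tate-Shafarevich group predicted by the formula, for a curve with an equation that
is minimal at all finite places and the value `l` of its L-function at `s = 1`:
`√|Disc K| #W(K)_tors² l / (Ω_{W/K} ∏ c_v)`. -/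
noncomputable def anOrder (K : Type) [Field K] [NumberField K] (W : WeierstrassCurve ℤ) (l : ℂ) : ℂ :=
  l * (√|(discr K : ℝ)| : ℝ) * (torsOrder K W : ℂ) ^ 2 / ((Omega K W : ℝ) * (Tam (base W K) : ℂ))

/-- `D` is squarefree, its prime factors are different from `r` and `1` modulo `4`; those which split
in `ℚ(√-7)` split completely in the field `K` of degree `2 ^ n` (they are `2 ^ n`-th powers modulo `r`),
and the others have a Frobenius element in `Gal(K/ℚ)` of order one or two (their squares are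
`2 ^ n`-th powers modulo `r`) -/
def Class (r n D : ℕ) : Prop := Squarefree D ∧ ∀ p : ℕ, p.Prime → p ∣ D → p % 4 = 1 ∧ p ≠ r ∧
  (IsSquare (-7 : ZMod p) → ∃ y : ZMod r, y ^ 2 ^ n = (p : ZMod r)) ∧
  (¬ IsSquare (-7 : ZMod p) → ∃ y : ZMod r, y ^ 2 ^ n = (p : ZMod r) ^ 2)

/-- the class for several fields -/
def ClassAll (R : Finset ℕ) (n : ℕ → ℕ) (D : ℕ) : Prop :=
  (Squarefree D ∧ ∀ p : ℕ, p.Prime → p ∣ D → p % 4 = 1) ∧ ∀ r ∈ R, Class r (n r) D

/-- `E_D(K)` is finite and `Ш(E_D/K)` has no element of order two -/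
def FiniteShaTwo (K : Type) [Field K] [NumberField K] (D : ℕ) : Prop :=
  Finite (base (twist D) K).toAffine.Point ∧ ∀ x : Sha (base (twist D) K), x + x = 0 → x = 0

/-- `Λ` is the analytic continuation to the complex plane of the L-function of `E_D` over `K` -/
def IsLFunction (K : Type) [Field K] [NumberField K] (D : ℕ) (Λ : ℂ → ℂ) : Prop :=
  Differentiable ℂ Λ ∧ ∀ s : ℂ, 2 < s.re → Λ s = (base (twist D) K).LSeries s

/-- Both sides of the formula are odd: `E_D(K)` is finite, `Ш(E_D/K)[2^∞] = 0`, `L(E_D/K, 1) ≠ 0`, and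
`z(D, K)` is a unit for all the valuations of `ℂ` above two. -/
def BothOdd (K : Type) [Field K] [NumberField K] (D : ℕ) : Prop :=
  Finite (base (twist D) K).toAffine.Point ∧ Sha2 (base (twist D) K) = {0} ∧
    ∃ Λ : ℂ → ℂ, IsLFunction K D Λ ∧ Λ 1 ≠ 0 ∧
      ∀ (Γ : Type) [LinearOrderedCommGroupWithZero Γ] (v : Valuation ℂ Γ), v 2 < 1 →
        v (anOrder K (twist D) (Λ 1)) = 1

/-- Both sides of the formula are even: `E_D(K)` is infinite or `Ш(E_D/K)` has an element of order two,
and `z(D, K)` is integral and not a unit for all the valuations of `ℂ` above two. -/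
def BothEven (K : Type) [Field K] [NumberField K] (D : ℕ) : Prop :=
  (Infinite (base (twist D) K).toAffine.Point ∨ ∃ x : Sha (base (twist D) K), x ≠ 0 ∧ x + x = 0) ∧
    ∃ Λ : ℂ → ℂ, IsLFunction K D Λ ∧
      ∀ (Γ : Type) [LinearOrderedCommGroupWithZero Γ] (v : Valuation ℂ Γ), v 2 < 1 →
        v (anOrder K (twist D) (Λ 1)) < 1

/-- the squarefree part of the product of two squarefree numbers -/
def star (m D : ℕ) : ℕ := m * D / (Nat.gcd m D) ^ 2

open Classical in
/-- the number of the `D ≤ X` of the class with the property `Q` -/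
noncomputable def count (R : Finset ℕ) (n : ℕ → ℕ) (Q : ℕ → Prop) (X : ℕ) : ℕ :=
  ((Icc 1 X).filter fun D => ClassAll R n D ∧ Q D).card

section proof

open Pool.Agent.Y698

lemma base_eq {D j : ℕ} (hj : D = 1 + 4 * j) (K : Type) [Field K] : base (twist D) K = AX K j :=
  twZ_map hj K

lemma cubic_eq {D j : ℕ} (hj : D = 1 + 4 * j) {R : Type} [CommRing R] (x : R) :
    cubic (twist D) x = psD (1 + 4 * j) x := by
  have h1 : (3 * (D : ℤ) + 1) / 4 = 1 + 3 * j := by
    rw [hj]
    push_cast
    omega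
  unfold cubic twist WeierstrassCurve.b₂ WeierstrassCurve.b₄ WeierstrassCurve.b₆ psD
  simp only
  rw [h1, hj]
  push_cast
  ring

lemma real_eq {D j : ℕ} (hj : D = 1 + 4 * j) : realPeriod (twist D) =
    ∫ x in {x : ℝ | 0 < psD (1 + 4 * j) x}, 2 / Real.sqrt (psD (1 + 4 * j) x) := by
  unfold realPeriod
  simp only [cubic_eq hj]
  rw [← integral_const_mul]
  congr 1
  funext x
  ring

lemma cplx_eq {D j : ℕ} (hj : D = 1 + 4 * j) : complexPeriod (twist D) =
    ∫ x : ℂ, 4 / ‖psD (1 + 4 * j) x‖ := by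
  unfold complexPeriod
  simp only [cubic_eq hj]
  rw [← mul_assoc, ← integral_const_mul]
  congr 1
  funext x
  ring


open Pool.Agent.X99.C49 in
/-- one field -/
lemma one_field {r n : ℕ} (hr : r.Prime) (h4 : r % 4 = 1) (h7 : ¬ IsSquare (-7 : ZMod r))
    (hn : 1 ≤ n) (K : IntermediateField ℚ (CyclotomicField r ℚ))
    (hK : Module.finrank ℚ K = 2 ^ n) {D : ℕ} (hD : KP.FamK r n D) :
    (BothOdd K D ∧ (mat (IP D) (SPr D)).det ≠ 0) ∨ (BothEven K D ∧ ¬ (mat (IP D) (SPr D)).det ≠ 0) := by
  classical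
  have : Fact r.Prime := ⟨hr⟩
  have hM : IsCyclotomicExtension {r} ℚ (CyclotomicField r ℚ) := Pool.Agent.Y698.cyc_inst r
  have hN : Normal ℚ K := (Pool.Agent.Y698.isGalK r K (M := CyclotomicField r ℚ)).to_normal
  have hir : Pool.Agent.Y698.Inq r := ⟨hr, h4, h7⟩
  have hfam : Fam D := hD.1
  have hQ' : ∀ q ∈ IP D, Pool.Agent.Y698.Inq q ∧ q ≠ r := fun q hq =>
    ⟨inq hfam q hq, (hD.2 q (Nat.prime_of_mem_primeFactors (mem_IP.1 hq).1)
      (Nat.dvd_of_mem_primeFactors (mem_IP.1 hq).1)).1⟩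
  have hP' : ∀ p ∈ SPr D, Pool.Agent.Y698.SG.Spl p := fun p hp => spl hfam p hp
  obtain ⟨j, hj⟩ : ∃ j, D = 1 + 4 * j := ⟨D / 4, by have := fam4 hfam; omega⟩
  have hprod : ∏ q ∈ IP D ∪ SPr D, q = 1 + 4 * j := by rw [← hj]; exact Mn_eq hfam
  -- the criterion
  have heq := Pool.Agent.Y698.SG.equiv_all (CyclotomicField r ℚ) K hK hn hir hQ' hP' hprod
  have hcl1 : ∀ q ∈ IP D, ∃ y : ZMod r, y ^ 2 ^ n = (q : ZMod r) ^ 2 := fun q hq => by
    obtain ⟨h1, h2⟩ := mem_IP.1 hq
    exact (hD.2 q (Nat.prime_of_mem_primeFactors h1) (Nat.dvd_of_mem_primeFactors h1)).2.2 h2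
  have hcl2 : ∀ p ∈ SPr D, ∃ y : ZMod r, y ^ 2 ^ n = (p : ZMod r) := fun p hp => by
    obtain ⟨h1, h2⟩ := mem_SPr.1 hp
    exact (hD.2 p (Nat.prime_of_mem_primeFactors h1) (Nat.dvd_of_mem_primeFactors h1)).2.1 h2
  have hCond : FiniteShaTwo K D ↔ ((∀ q ∈ IP D, ∃ y : ZMod r, y ^ 2 ^ n = (q : ZMod r) ^ 2) ∧
        (∀ p ∈ SPr D, ∃ y : ZMod r, y ^ 2 ^ n = (p : ZMod r)) ∧
          (Pool.Agent.Y698.SG.mat (IP D) (SPr D)).det ≠ 0) := by
    unfold FiniteShaTwo
    rw [base_eq hj]
    exact heq.symm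
  have hdet : FiniteShaTwo K D ↔ (mat (IP D) (SPr D)).det ≠ 0 :=
    hCond.trans ⟨fun h => h.2.2, fun h => ⟨hcl1, hcl2, h⟩⟩
  have han : ∀ l : ℂ, anOrder K (twist D) l = Pool.Agent.Y698.SG.quoT K j l := by
    intro l
    unfold anOrder torsOrder Omega
    rw [base_eq hj, real_eq hj, cplx_eq hj]
    unfold Pool.Agent.Y698.SG.quoT Pool.Agent.Y698.SG.tnum
    have hT : Tam (Pool.Agent.Y698.AX K j) = ∏ᶠ v, Pool.Agent.Y698.tam (Pool.Agent.Y698.AX K j) v :=
      rfl
    rw [hT]
    generalize (∏ᶠ v, Pool.Agent.Y698.tam (Pool.Agent.Y698.AX K j) v : ℕ) = t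
    push_cast
    rfl
  obtain ⟨Λ, h1, h2, h3⟩ := Pool.Agent.Y698.SG.level_all (CyclotomicField r ℚ) K hK hn hir
    hQ' hP' hprod
  have hL : IsLFunction K D Λ := ⟨h1, by rw [base_eq hj]; exact h2⟩
  by_cases hd : (mat (IP D) (SPr D)).det ≠ 0
  · left
    refine ⟨?_, hd⟩
    have hdt : Pool.Agent.Y698.SG.Dt r n (IP D) (SPr D) := by
      obtain ⟨k, rfl⟩ : ∃ k, n = k + 1 := ⟨n - 1, by omega⟩
      exact ⟨hn, hir, fun q hq => ⟨(hQ' q hq).1, (hQ' q hq).2, hcl1 q hq⟩,
          fun p hp => ⟨hP' p hp, hcl2 p hp⟩, hd⟩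
    have hv : ∀ (Γ : Type) [LinearOrderedCommGroupWithZero Γ] (v : Valuation ℂ Γ), v 2 < 1 →
        v (anOrder K (twist D) (Λ 1)) = 1 := by
      intro Γ _ v hv
      rw [han]
      exact ((h3 Γ v hv).2).2 (hCond.1 (hdet.2 hd))
    refine ⟨(hdet.2 hd).1, ?_, Λ, hL, ?_, hv⟩
    · apply Set.eq_singleton_iff_unique_mem.2
      refine ⟨⟨0, smul_zero _⟩, ?_⟩
      rintro x ⟨l, hl⟩
      revert x
      rw [base_eq hj]
      intro x hl
      obtain ⟨k, rfl⟩ : ∃ k, n = k + 1 := ⟨n - 1, by omega⟩
      exact Pool.Agent.Y698.SG.sha_two_powE (CyclotomicField r ℚ) K hK hdt hprod x l hl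
    · intro h0
      refine Pool.Agent.Y698.SG.exists_val2 fun Γ _ v hv' => ?_
      have h6 := hv Γ v hv'
      rw [h0, han] at h6
      unfold Pool.Agent.Y698.SG.quoT at h6
      rw [zero_mul, zero_mul, zero_div, map_zero] at h6
      exact zero_ne_one h6
  · right
    refine ⟨⟨?_, Λ, hL, ?_⟩, hd⟩
    · by_contra hne
      rw [not_or, not_infinite_iff_finite, not_exists] at hne
      apply hd
      rw [← hdet]
      refine ⟨hne.1, fun x hx => ?_⟩
      by_contra hx0
      exact hne.2 x ⟨hx0, hx⟩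
    · intro Γ _ v hv
      have h5 := h3 Γ v hv
      rw [han]
      refine lt_of_le_of_ne h5.1 fun h6 => hd (hdet.1 (hCond.2 (h5.2.1 h6)))

/-- the two cases exclude each other -/
lemma not_both {K : Type} [Field K] [NumberField K] {D : ℕ} : ¬ (BothOdd K D ∧ BothEven K D) := by
  rintro ⟨⟨h1, h2, -⟩, h3, -⟩
  rcases h3 with h3 | ⟨x, hx0, hx⟩
  · exact not_finite_iff_infinite.2 h3 h1
  · have h4 : x ∈ Sha2 (base (twist D) K) := ⟨1, by rw [pow_one, two_nsmul]; exact hx⟩
    rw [h2] at h4
    exact hx0 h4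

end proof

open Pool.Agent.X99.C49 in
/-- **Many fields and many twists.** -/
theorem result (R : Finset ℕ) (n : ℕ → ℕ) (hR0 : R.Nonempty)
    (hR : ∀ r ∈ R, r.Prime ∧ r % 4 = 1 ∧ ¬ IsSquare (-7 : ZMod r) ∧ 1 ≤ n r)
    (K : ∀ r : ℕ, IntermediateField ℚ (CyclotomicField r ℚ))
    (hK : ∀ r ∈ R, Module.finrank ℚ (K r) = 2 ^ n r) :
    (∀ D : ℕ, ClassAll R n D →
      ((∀ r ∈ R, BothOdd (K r) D) ∨ (∀ r ∈ R, BothEven (K r) D)) ∧
      ∀ r ∈ R, ¬ (BothOdd (K r) D ∧ BothEven (K r) D)) ∧
    (∀ m D : ℕ, ClassAll R n m → ClassAll R n D → ClassAll R n (star m D)) ∧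
    ∀ G H : Finset ℕ, (∀ m ∈ G, ClassAll R n m) → (∀ m ∈ H, ClassAll R n m) → Disjoint G H →
      Filter.Tendsto (fun X : ℕ => (count R n (fun D => ∀ r ∈ R,
          (∀ m ∈ G, BothOdd (K r) (star m D)) ∧ ∀ m ∈ H, BothEven (K r) (star m D)) X : ℝ) /
        (count R n (fun _ => True) X : ℝ)) Filter.atTop
        (nhds ((∏' i : ℕ, (1 - (1 / 2 : ℝ) ^ (2 * i + 1))) ^ G.card *
          (1 - ∏' i : ℕ, (1 - (1 / 2 : ℝ) ^ (2 * i + 1))) ^ H.card)) := by
  classical
  have hHR : KR.HR R := by
    intro r hr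
    obtain ⟨h1, h2, h3, -⟩ := hR r hr
    refine ⟨h1, ?_⟩
    have h4 : Nat.Coprime (2 ^ 2 * 7) r := by
      refine Nat.Coprime.mul_left ?_ ?_
      · refine Nat.Coprime.pow_left 2 ?_
        rw [Nat.coprime_primes Nat.prime_two h1]
        rintro rfl
        exact absurd h2 (by decide)
      · rw [Nat.coprime_primes (by norm_num) h1]
        rintro rfl
        exact absurd h2 (by decide)
    exact h4
  have hcl : ∀ D : ℕ, ClassAll R n D ↔ KR.FamR R n D := by
    intro D
    unfold ClassAll KR.FamR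
    refine and_congr_right fun h0 => forall_congr' fun r => forall_congr' fun _ => ?_
    constructor
    · rintro ⟨h1, h2⟩
      exact ⟨h0, fun p hp hpD => (h2 p hp hpD).2⟩
    · rintro ⟨h1, h2⟩
      exact ⟨h0.1, fun p hp hpD => ⟨h0.2 p hp hpD, h2 p hp hpD⟩⟩
  have hone : ∀ D : ℕ, KR.FamR R n D → ∀ r ∈ R,
      (BothOdd (K r) D ∧ (mat (IP D) (SPr D)).det ≠ 0) ∨
        (BothEven (K r) D ∧ ¬ (mat (IP D) (SPr D)).det ≠ 0) := by
    intro D hD r hr
    obtain ⟨h1, h2, h3, h4⟩ := hR r hr
    exact one_field h1 h2 h3 h4 (K r) (hK r hr) (hD.2 r hr)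
  refine ⟨fun D hD => ⟨?_, fun r _ => not_both⟩, fun m D hm hD => ?_, fun G H hG hH hd => ?_⟩
  · have hD' := (hcl D).1 hD
    by_cases hdet : (mat (IP D) (SPr D)).det ≠ 0
    · left
      intro r hr
      rcases hone D hD' r hr with h | h
      · exact h.1
      · exact absurd hdet h.2
    · right
      intro r hr
      rcases hone D hD' r hr with h | h
      · exact absurd h.2 hdet
      · exact h.1
  · rw [hcl] at hm hD ⊢
    exact KR.famR_star hm hD
  · have h := KR.jointR hHR (n := n) (fun D => (mat (IP D) (SPr D)).det ≠ 0) (fun D _ => Iff.rfl) G H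
      (fun m hm => (hcl m).1 (hG m hm)) (fun m hm => (hcl m).1 (hH m hm)) hd
    refine h.congr fun X => ?_
    unfold count
    refine congrArg₂ (fun a b : ℕ => (a : ℝ) / (b : ℝ)) ?_ ?_
    · refine Pool.Agent.X99.GJ.fc _ fun D _ => ?_
      rw [hcl]
      refine and_congr_right fun hD => ?_
      constructor
      · rintro ⟨h1, h2⟩ r hr
        refine ⟨fun m hm => ?_, fun m hm => ?_⟩
        · rcases hone _ (KR.famR_star ((hcl m).1 (hG m hm)) hD) r hr with h' | h'
          · exact h'.1
          · exact absurd (h1 m hm) h'.2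
        · rcases hone _ (KR.famR_star ((hcl m).1 (hH m hm)) hD) r hr with h' | h'
          · exact absurd h'.2 (h2 m hm)
          · exact h'.1
      · intro h1
        obtain ⟨r, hr⟩ := hR0
        refine ⟨fun m hm => ?_, fun m hm => ?_⟩
        · rcases hone _ (KR.famR_star ((hcl m).1 (hG m hm)) hD) r hr with h' | h'
          · exact h'.2
          · exact absurd ⟨(h1 r hr).1 m hm, h'.1⟩ not_both
        · rcases hone _ (KR.famR_star ((hcl m).1 (hH m hm)) hD) r hr with h' | h'
          · exact absurd ⟨h'.1, (h1 r hr).2 m hm⟩ not_both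
          · exact h'.2
    · refine Pool.Agent.X99.GJ.fc _ fun D _ => ?_
      rw [hcl, and_true]

end Pool.Agent.Results.MP_9ab903_nt.SimultaneousTwistsCyclicFields
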