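import Mathlib
import Pool.Agent.Y698.SG.Fj
import Pool.Agent.Y698.SG.Ug
import Pool.Agent.Y698.SG.Uj
import Pool.Agent.Y698.SG.Dwc
import Pool.Agent.Y698.SG.Ebb
import Pool.Agent.X99.C49.KPr
import Pool.Agent.X99.C49.Fin

/-!
# The formula of Birch and Swinnerton-Dyer modulo two for the twists of `X_0(49)` over the subfields of
# degree `2 ^ n` of `ℚ(ζ_r)`: the exact proportion

`r ≡ 1 mod 4` is any prime number which is inert in `ℚ(√-7)`, `n ≥ 1`, and `K` is the subfield of degree
`2 ^ n` of `ℚ(ζ_r)` (real or totally complex, of arbitrarily large degree). `E_D` is the quadratic twist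
by `D` of `X_0(49) : y² + x y = x³ - x² - 2 x - 1`. `D` runs through the odd squarefree positive
integers prime to `r` all of whose prime factors are `1` modulo `4`. Let

`z(D) = √|Disc K| #E_D(K)_tors² L(E_D/K, 1) / (Ω ∏ c_v)`,

which is zero or the order of `Ш(E_D/K)` according to the conjecture. For every such `D`, without any
hypothesis on rank or `Ш`: `L(E_D/K, s)` is entire, `z(D)` is integral at the primes above two, and it is a
unit at one (or all) of them if and only if `E_D(K)` is finite and `Ш(E_D/K)[2] = 0`. Call `D` good in this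
case; then `L(E_D/K, 1) ≠ 0`, the rank is zero and `Ш(E_D/K)[2^∞] = 0`, and the formula holds up to units
above two.

The new point is the count. All the good `D` are in the class `Class` of the `D` whose prime factors that
split in `ℚ(√-7)` split completely in `K`, while the Frobenius elements in `K` of the others
have order one or two; and of this class exactly the proportion

`∏_{i ≥ 0} (1 - 2^{-(2i+1)}) = 0.4194...`

is good, for every `r` and `n`. In the class the formula is so proved modulo the primes above two, with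
both sides odd for the proportion `0.4194...` and both sides even for the proportion `0.5805...`;
outside of the class both sides are always even.

Proof. The values and the descent over `K` are those of the teams of `Pool/Agent/Y698` (see
`FormulaModTwoAllTwists` of problem `MP_1a91b9_nt`; the case left out there is included here). The
exact proportion is from `Pool/Agent/X99/GQ`: matrices of quadratic residue symbols with rows indexed by
the prime factors of `D` in arbitrary classes modulo an arbitrary `N`; here `N = 28 r`, and the classes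
of the rows form a subgroup, which makes it possible to bound the number of the `D` with few rows
by means of complex characters modulo `N`.
-/

set_option autoImplicit false

open Finset NumberField NumberField.InfinitePlace IsDedekindDomain WeierstrassCurve MeasureTheory

namespace Pool.Agent.Results.MP_9ab903_nt.TwistsExactProportion

open Pool.Agent.TH841.NF.D (Sha)
open Pool.Agent.TH841.SH.D (Pt)

/-- For `D ≡ 1 mod 4` the quadratic twist by `D` of the elliptic curve
`X_0(49) : y² + x y = x³ - x² - 2 x - 1`: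
the curve `y² + x y = x³ - (3 D + 1) / 4 x² - 2 D² x - D³`. -/
def twist (D : ℕ) : WeierstrassCurve ℤ := ⟨1, -((3 * D + 1) / 4), 0, -2 * D ^ 2, -D ^ 3⟩

/-- The curve given by the equation of `W` over the ring `R`. -/
abbrev base (W : WeierstrassCurve ℤ) (R : Type) [CommRing R] : WeierstrassCurve R :=
  W.map (Int.castRingHom R)

section

variable {K : Type} [Field K] [NumberField K]

/-- The equation is minimal at the finite place `v` of `K`: no change of variables over `K` that
keeps the coefficients integral at `v` decreases the order of the discriminant. -/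
def MinimalAt (W : WeierstrassCurve K) (v : HeightOneSpectrum (𝓞 K)) : Prop :=
  ∀ C : VariableChange K, v.valuation K (C • W).a₁ ≤ 1 → v.valuation K (C • W).a₂ ≤ 1 →
    v.valuation K (C • W).a₃ ≤ 1 → v.valuation K (C • W).a₄ ≤ 1 → v.valuation K (C • W).a₆ ≤ 1 →
    v.valuation K (C • W).Δ ≤ v.valuation K W.Δ

/-- `W⁰(K_v)`, the group of the points of `W` over the completion `K_v` with nonsingular reduction:
the point at infinity and the points `(x, y)` where `x` is not integral, or one of the partial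
derivatives of `y² + a₁ x y + a₃ y - x³ - a₂ x² - a₄ x - a₆` is a unit at `(x, y)`.
Here `Pt W K_v` is the group of the points of `W` over `K_v`. -/
noncomputable def nonsing (W : WeierstrassCurve K) (v : HeightOneSpectrum (𝓞 K)) :
    AddSubgroup (Pt W (v.adicCompletion K)) :=
  AddSubgroup.closure {P | ∀ x y h, P = Affine.Point.some x y h →
    1 < Valued.v x ∨
    Valued.v ((W.baseChange (v.adicCompletion K)).a₁ * y -
      (3 * x ^ 2 + 2 * (W.baseChange (v.adicCompletion K)).a₂ * x +
        (W.baseChange (v.adicCompletion K)).a₄)) = 1 ∨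
    Valued.v (2 * y + (W.baseChange (v.adicCompletion K)).a₁ * x +
      (W.baseChange (v.adicCompletion K)).a₃) = 1}

/-- The Tamagawa number `c_v = [W(K_v) : W⁰(K_v)]` of a minimal equation. -/
noncomputable def c (W : WeierstrassCurve K) (v : HeightOneSpectrum (𝓞 K)) : ℕ :=
  (nonsing W v).index

/-- The product of the Tamagawa numbers. -/
noncomputable def Tam (W : WeierstrassCurve K) : ℕ := ∏ᶠ v : HeightOneSpectrum (𝓞 K), c W v

/-- The 2-primary part of the Tate-Shafarevich group over `K`. -/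
def Sha2 (W : WeierstrassCurve K) : Set (Sha W) := {x | ∃ n : ℕ, 2 ^ n • x = 0}

end

/-- `4 x³ + b₂ x² + 2 b₄ x + b₆ = (2 y + a₁ x + a₃)²`. -/
def cubic (W : WeierstrassCurve ℤ) {R : Type} [CommRing R] (x : R) : R :=
  4 * x ^ 3 + W.b₂ * x ^ 2 + 2 * W.b₄ * x + W.b₆

/-- `∫_{W(ℝ)} |ω|` with `ω = dx / (2 y + a₁ x + a₃)`, as an integral over `x`: two real points lie
over each `x` with `cubic x > 0`. -/
noncomputable def realPeriod (W : WeierstrassCurve ℤ) : ℝ :=
  2 * ∫ x in {x : ℝ | 0 < cubic W x}, 1 / √(cubic W x)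

/-- `2 ∫_{W(ℂ)} |ω ∧ ω̄|`, where `|ω ∧ ω̄| = du dv` in a local parameter `z = u + i v` with
`dz = ω`, as an integral over `x`: two points lie over a general `x`, and `|ω ∧ ω̄|` is the area
element of the plane of `x` divided by `|cubic x|`. -/
noncomputable def complexPeriod (W : WeierstrassCurve ℤ) : ℝ := 2 * (2 * ∫ x : ℂ, 1 / ‖cubic W x‖)

/-- `Ω_{W/K}`. -/
noncomputable def Omega (K : Type) [Field K] [NumberField K] (W : WeierstrassCurve ℤ) : ℝ :=
  realPeriod W ^ nrRealPlaces K * complexPeriod W ^ nrComplexPlaces K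

open Classical in
/-- The order of the torsion subgroup of `W(K)`. -/
noncomputable def torsOrder (K : Type) [Field K] [NumberField K] (W : WeierstrassCurve ℤ) : ℕ :=
  Nat.card (AddCommGroup.torsion (base W K).toAffine.Point)

open Classical in
/-- The rank of `W(K)`. -/
noncomputable def rank (K : Type) [Field K] [NumberField K] (W : WeierstrassCurve ℤ) : ℕ :=
  Module.finrank ℤ (base W K).toAffine.Point

/-- The order of the Tate-Shafarevich group predicted by the formula, for a curve with an equation that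
is minimal at all finite places and the value `l` of its L-function at `s = 1`:
`√|Disc K| #W(K)_tors² l / (Ω_{W/K} ∏ c_v)`. -/
noncomputable def anOrder (K : Type) [Field K] [NumberField K] (W : WeierstrassCurve ℤ) (l : ℂ) : ℂ :=
  l * (√|(discr K : ℝ)| : ℝ) * (torsOrder K W : ℂ) ^ 2 / ((Omega K W : ℝ) * (Tam (base W K) : ℂ))

/-- `D` is squarefree and all its prime factors are different from `r` and `1` modulo `4` -/
def Twist (r D : ℕ) : Prop := Squarefree D ∧ ∀ p : ℕ, p.Prime → p ∣ D → p % 4 = 1 ∧ p ≠ r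

/-- moreover the prime factors of `D` that split in `ℚ(√-7)` split completely in the field `K` of
degree `2 ^ n` (they are `2 ^ n`-th powers modulo `r`), and the others have a Frobenius element in
`Gal(K/ℚ)` of order one or two (their squares are `2 ^ n`-th powers modulo `r`) -/
def Class (r n D : ℕ) : Prop := Twist r D ∧ ∀ p : ℕ, p.Prime → p ∣ D →
  (IsSquare (-7 : ZMod p) → ∃ y : ZMod r, y ^ 2 ^ n = (p : ZMod r)) ∧
  (¬ IsSquare (-7 : ZMod p) → ∃ y : ZMod r, y ^ 2 ^ n = (p : ZMod r) ^ 2)

/-- `E_D(K)` is finite and `Ш(E_D/K)` has no element of order two -/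
def FiniteShaTwo (K : Type) [Field K] [NumberField K] (D : ℕ) : Prop :=
  Finite (base (twist D) K).toAffine.Point ∧ ∀ x : Sha (base (twist D) K), x + x = 0 → x = 0

open Classical in
/-- the number of the prime factors of `D` that are inert in `ℚ(√-7)` -/
noncomputable def inert (D : ℕ) : ℕ :=
  (D.primeFactors.filter fun p => ¬ IsSquare (-7 : ZMod p)).card

open Classical in
/-- the number of the prime factors of `D` that split in `ℚ(√-7)` -/
noncomputable def split (D : ℕ) : ℕ :=
  (D.primeFactors.filter fun p => IsSquare (-7 : ZMod p)).card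

open Classical in
/-- the number of the `D ≤ X` of the class -/
noncomputable def total (r n X : ℕ) : ℕ := ((Icc 1 X).filter fun D => Class r n D).card

open Classical in
/-- the number of ALL the `D ≤ X` prime to `r` with prime factors `1` modulo `4` for which `E_D(K)` is
finite and `Ш(E_D/K)[2] = 0` (they are all in the class) -/
noncomputable def good (K : Type) [Field K] [NumberField K] (r X : ℕ) : ℕ :=
  ((Icc 1 X).filter fun D => Twist r D ∧ FiniteShaTwo K D).card

section proof

open Pool.Agent.Y698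

lemma base_eq {D j : ℕ} (hj : D = 1 + 4 * j) (K : Type) [Field K] : base (twist D) K = AX K j :=
  twZ_map hj K

lemma cubic_eq {D j : ℕ} (hj : D = 1 + 4 * j) {R : Type} [CommRing R] (x : R) :
    cubic (twist D) x = psD (1 + 4 * j) x := by
  have h1 : (3 * (D : ℤ) + 1) / 4 = 1 + 3 * j := by
    rw [hj]
    push_cast
    omega
  unfold cubic twist WeierstrassCurve.b₂ WeierstrassCurve.b₄ WeierstrassCurve.b₆ psD
  simp only
  rw [h1, hj]
  push_cast
  ring

lemma real_eq {D j : ℕ} (hj : D = 1 + 4 * j) : realPeriod (twist D) =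
    ∫ x in {x : ℝ | 0 < psD (1 + 4 * j) x}, 2 / Real.sqrt (psD (1 + 4 * j) x) := by
  unfold realPeriod
  simp only [cubic_eq hj]
  rw [← integral_const_mul]
  congr 1
  funext x
  ring

lemma cplx_eq {D j : ℕ} (hj : D = 1 + 4 * j) : complexPeriod (twist D) =
    ∫ x : ℂ, 4 / ‖psD (1 + 4 * j) x‖ := by
  unfold complexPeriod
  simp only [cubic_eq hj]
  rw [← mul_assoc, ← integral_const_mul]
  congr 1
  funext x
  ring

lemma rank_zero (K : Type) [Field K] [NumberField K] (W : WeierstrassCurve ℤ)
    (h : Finite (base W K).toAffine.Point) : rank K W = 0 := by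
  classical
  exact Pool.Agent.Y687.finrank_zero_of_finite h

end proof

open Pool.Agent.X99.C49 in
/-- **The formula modulo the primes above two over `K`, and the exact proportion of the cases where
both sides are odd.** -/
theorem result {r n : ℕ} (hr : r.Prime) (h4 : r % 4 = 1) (h7 : ¬ IsSquare (-7 : ZMod r))
    (hn : 1 ≤ n) (K : IntermediateField ℚ (CyclotomicField r ℚ))
    (hK : Module.finrank ℚ K = 2 ^ n) :
    (∀ D : ℕ, Twist r D →
      (∀ v : HeightOneSpectrum (𝓞 K), MinimalAt (base (twist D) K) v) ∧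
      (∃ t : ℕ, Odd t ∧ torsOrder K (twist D) = 2 * t) ∧
      ∃ Λ : ℂ → ℂ, Differentiable ℂ Λ ∧
        (∀ s : ℂ, 2 < s.re → Λ s = (base (twist D) K).LSeries s) ∧
        (∃ m : ℤ, Odd m ∧ _root_.IsIntegral ℤ ((m : ℂ) * anOrder K (twist D) (Λ 1))) ∧
        (∀ (Γ : Type) [LinearOrderedCommGroupWithZero Γ] (v : Valuation ℂ Γ), v 2 < 1 →
          v (anOrder K (twist D) (Λ 1)) ≤ 1 ∧
          (v (anOrder K (twist D) (Λ 1)) = 1 ↔ FiniteShaTwo K D)) ∧
        (FiniteShaTwo K D →
          analyticOrderAt Λ 1 = (rank K (twist D) : ℕ∞) ∧ rank K (twist D) = 0 ∧ Λ 1 ≠ 0 ∧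
          (∃ m : ℤ, Odd m ∧ _root_.IsIntegral ℤ ((m : ℂ) * (anOrder K (twist D) (Λ 1))⁻¹)) ∧
          Sha2 (base (twist D) K) = {0} ∧
          Tam (base (twist D) K) = 2 ^ (1 + (inert D + 2 * split D) * 2 ^ n) ∧ Class r n D)) ∧
    Filter.Tendsto (fun X : ℕ => (good K r X : ℝ) / (total r n X : ℝ))
      Filter.atTop (nhds (∏' i : ℕ, (1 - (1 / 2 : ℝ) ^ (2 * i + 1)))) := by
  classical
  have : Fact r.Prime := ⟨hr⟩
  have hM : IsCyclotomicExtension {r} ℚ (CyclotomicField r ℚ) := Pool.Agent.Y698.cyc_inst r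
  have hN : Normal ℚ K := (Pool.Agent.Y698.isGalK r K (M := CyclotomicField r ℚ)).to_normal
  have hir : Pool.Agent.Y698.Inq r := ⟨hr, h4, h7⟩
  have hr7 : r ≠ 7 := by
    rintro rfl
    exact absurd h4 (by decide)
  have h28 : Nat.Coprime 28 r := by
    have h1 : Nat.Coprime (2 ^ 2 * 7) r := by
      refine Nat.Coprime.mul_left ?_ ?_
      · refine Nat.Coprime.pow_left 2 ?_
        rw [Nat.coprime_primes Nat.prime_two hr]
        rintro rfl
        exact absurd h4 (by decide)
      · rw [Nat.coprime_primes (by norm_num) hr]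
        exact fun h => hr7 h.symm
    exact h1
  -- the family
  have hfam : ∀ D : ℕ, Twist r D → Fam D := fun D h => ⟨h.1, fun p hp hpD => (h.2 p hp hpD).1⟩
  have hcl : ∀ D : ℕ, Class r n D ↔ KP.FamK r n D := by
    intro D
    constructor
    · rintro ⟨h1, h2⟩
      exact ⟨hfam D h1, fun p hp hpD => ⟨(h1.2 p hp hpD).2, h2 p hp hpD⟩⟩
    · rintro ⟨h1, h2⟩
      exact ⟨⟨h1.1, fun p hp hpD => ⟨h1.2 p hp hpD, (h2 p hp hpD).1⟩⟩,
        fun p hp hpD => (h2 p hp hpD).2⟩
  have hQ' : ∀ D : ℕ, Twist r D → ∀ q ∈ IP D, Pool.Agent.Y698.Inq q ∧ q ≠ r := fun D h q hq =>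
    ⟨inq (hfam D h) q hq, (h.2 q (Nat.prime_of_mem_primeFactors (mem_IP.1 hq).1)
      (Nat.dvd_of_mem_primeFactors (mem_IP.1 hq).1)).2⟩
  have hP' : ∀ D : ℕ, Twist r D → ∀ p ∈ SPr D, Pool.Agent.Y698.SG.Spl p := fun D h p hp =>
    spl (hfam D h) p hp
  have hPr : ∀ D : ℕ, Twist r D → ∀ p ∈ SPr D, p ≠ r := fun D h p hp =>
    (h.2 p (Nat.prime_of_mem_primeFactors (mem_SPr.1 hp).1)
      (Nat.dvd_of_mem_primeFactors (mem_SPr.1 hp).1)).2
  have hjj : ∀ D : ℕ, Twist r D → ∃ j, D = 1 + 4 * j ∧ ∏ q ∈ IP D ∪ SPr D, q = 1 + 4 * j := by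
    intro D h
    obtain ⟨j, hj⟩ : ∃ j, D = 1 + 4 * j := ⟨D / 4, by have := fam4 (hfam D h); omega⟩
    exact ⟨j, hj, by rw [← hj]; exact Mn_eq (hfam D h)⟩
  -- the criterion
  have hCond : ∀ D : ℕ, Twist r D → (FiniteShaTwo K D ↔
      ((∀ q ∈ IP D, ∃ y : ZMod r, y ^ 2 ^ n = (q : ZMod r) ^ 2) ∧
        (∀ p ∈ SPr D, ∃ y : ZMod r, y ^ 2 ^ n = (p : ZMod r)) ∧
          (Pool.Agent.Y698.SG.mat (IP D) (SPr D)).det ≠ 0)) := by
    intro D h
    obtain ⟨j, hj, hprod⟩ := hjj D h
    have heq := Pool.Agent.Y698.SG.equiv_all (CyclotomicField r ℚ) K hK hn hir (hQ' D h) (hP' D h)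
      hprod
    unfold FiniteShaTwo
    rw [base_eq hj]
    exact heq.symm
  have hdt : ∀ D : ℕ, Twist r D → FiniteShaTwo K D →
      Pool.Agent.Y698.SG.Dt r n (IP D) (SPr D) := fun D h hg => by
    obtain ⟨k, rfl⟩ : ∃ k, n = k + 1 := ⟨n - 1, by omega⟩
    have hC := (hCond D h).1 hg
    exact ⟨hn, hir, fun q hq => ⟨(hQ' D h q hq).1, (hQ' D h q hq).2, hC.1 q hq⟩,
        fun p hp => ⟨hP' D h p hp, hC.2.1 p hp⟩, hC.2.2⟩
  have hgC : ∀ D : ℕ, Twist r D → FiniteShaTwo K D → Class r n D := by
    intro D h hg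
    obtain ⟨c1, c2, -⟩ := (hCond D h).1 hg
    refine ⟨h, fun p hp hpD => ?_⟩
    have hm : p ∈ D.primeFactors := Nat.mem_primeFactors.2 ⟨hp, hpD, h.1.ne_zero⟩
    exact ⟨fun h1 => c2 p (mem_SPr.2 ⟨hm, h1⟩), fun h1 => c1 p (mem_IP.2 ⟨hm, h1⟩)⟩
  have hmat : ∀ D : ℕ, (Pool.Agent.Y698.SG.mat (IP D) (SPr D)).det ≠ 0 ↔
      (mat (IP D) (SPr D)).det ≠ 0 := fun D => Iff.rfl
  have hcrit : ∀ D : ℕ, Class r n D → (FiniteShaTwo K D ↔
      Pool.Agent.X99.GQ.Gd (KP.PK r n) n4 D.primeFactors) := by
    intro D hC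
    rw [hCond D hC.1, KP.gdK_iff hr ((hcl D).1 hC), hmat]
    constructor
    · exact fun h => h.2.2
    · intro h
      refine ⟨fun q hq => ?_, fun p hp => ?_, h⟩
      · obtain ⟨h1, h2⟩ := mem_IP.1 hq
        exact (hC.2 q (Nat.prime_of_mem_primeFactors h1) (Nat.dvd_of_mem_primeFactors h1)).2 h2
      · obtain ⟨h1, h2⟩ := mem_SPr.1 hp
        exact (hC.2 p (Nat.prime_of_mem_primeFactors h1) (Nat.dvd_of_mem_primeFactors h1)).1 h2
  refine ⟨fun D hD => ?_, ?_⟩
  · obtain ⟨j, hj, hprod⟩ := hjj D hD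
    have hgp : ∀ q ∈ IP D ∪ SPr D, Pool.Agent.Y698.SG.Gp q ∧ q ≠ r := by
      intro q hq
      rcases Finset.mem_union.1 hq with h | h
      · exact ⟨Pool.Agent.Y698.SG.Gp.of_inq (hQ' D hD q h).1, (hQ' D hD q h).2⟩
      · exact ⟨Pool.Agent.Y698.SG.Gp.of_spl (hP' D hD q h), hPr D hD q h⟩
    have han : ∀ l : ℂ, anOrder K (twist D) l = Pool.Agent.Y698.SG.quoT K j l := by
      intro l
      unfold anOrder torsOrder Omega
      rw [base_eq hj, real_eq hj, cplx_eq hj]
      unfold Pool.Agent.Y698.SG.quoT Pool.Agent.Y698.SG.tnum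
      have hT : Tam (Pool.Agent.Y698.AX K j) = ∏ᶠ v, Pool.Agent.Y698.tam (Pool.Agent.Y698.AX K j) v :=
        rfl
      rw [hT]
      generalize (∏ᶠ v, Pool.Agent.Y698.tam (Pool.Agent.Y698.AX K j) v : ℕ) = t
      push_cast
      rfl
    have hst : torsOrder K (twist D) = Pool.Agent.Y698.SG.tnum (Pool.Agent.Y698.AX K j) := by
      unfold torsOrder Pool.Agent.Y698.SG.tnum
      rw [base_eq hj]
    obtain ⟨Λ, h1, h2, h3⟩ := Pool.Agent.Y698.SG.level_all (CyclotomicField r ℚ) K hK hn hir
      (hQ' D hD) (hP' D hD) hprod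
    have hz : FiniteShaTwo K D → ∀ (Γ : Type) [LinearOrderedCommGroupWithZero Γ]
        (v : Valuation ℂ Γ), v 2 < 1 → v (Pool.Agent.Y698.SG.quoT K j (Λ 1)) = 1 :=
      fun hC Γ _ v hv => ((h3 Γ v hv).2).2 ((hCond D hD).1 hC)
    refine ⟨?_, ?_, Λ, h1, ?_, ?_, ?_, ?_⟩
    · rw [base_eq hj]
      exact fun v => Pool.Agent.Y698.SG.minimal_E (CyclotomicField r ℚ) K h7 hgp hprod v
    · rw [hst]
      exact Pool.Agent.Y698.SG.tnum_AX (CyclotomicField r ℚ) K h7 j
    · rw [base_eq hj]
      exact h2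
    · rw [han]
      exact Pool.Agent.Y698.int_of_val fun Γ _ v hv => (h3 Γ v hv).1
    · intro Γ _ v hv
      rw [han, hCond D hD]
      exact h3 Γ v hv
    · intro hC
      have hΛ1 : Λ 1 ≠ 0 := by
        intro h0
        refine Pool.Agent.Y698.SG.exists_val2 fun Γ _ v hv => ?_
        have h6 := hz hC Γ v hv
        rw [h0] at h6
        unfold Pool.Agent.Y698.SG.quoT at h6
        rw [zero_mul, zero_mul, zero_div, map_zero] at h6
        exact zero_ne_one h6
      have hrk : rank K (twist D) = 0 := rank_zero K _ hC.1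
      refine ⟨?_, hrk, hΛ1, ?_, ?_, ?_, hgC D hD hC⟩
      · rw [hrk, (h1.analyticAt 1).analyticOrderAt_eq_zero.2 hΛ1]
        rfl
      · rw [han]
        exact Pool.Agent.Y698.int_of_val fun Γ _ v hv => by rw [map_inv₀, hz hC Γ v hv, inv_one]
      · apply Set.eq_singleton_iff_unique_mem.2
        refine ⟨⟨0, smul_zero _⟩, ?_⟩
        rintro x ⟨l, hl⟩
        revert x
        rw [base_eq hj]
        intro x hl
        obtain ⟨k, rfl⟩ : ∃ k, n = k + 1 := ⟨n - 1, by omega⟩
        exact Pool.Agent.Y698.SG.sha_two_powE (CyclotomicField r ℚ) K hK (hdt D hD hC) hprod x l hl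
      · rw [base_eq hj]
        obtain ⟨k, rfl⟩ : ∃ k, n = k + 1 := ⟨n - 1, by omega⟩
        exact Pool.Agent.Y698.SG.tam_prodE (CyclotomicField r ℚ) K hK (hdt D hD hC) hprod
  · have hp := KP.denK (r := r) (n := n) hr h28 n4
    unfold Pool.Agent.Y703.CQ.c2 at hp
    refine hp.congr fun X => congrArg₂ (fun a b : ℕ => (a : ℝ) / (b : ℝ)) ?_ ?_
    · refine congrArg Finset.card (Finset.ext fun D => ?_)
      refine (Finset.mem_filter).trans (Iff.trans ?_ (Finset.mem_filter).symm)
      refine and_congr_right fun _ => ?_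
      rw [← and_assoc, KP.famK_iff hr h28, ← hcl D]
      constructor
      · rintro ⟨hC, hg⟩
        exact ⟨hC.1, (hcrit D hC).2 hg⟩
      · rintro ⟨hT, hg⟩
        have hC := hgC D hT hg
        exact ⟨hC, (hcrit D hC).1 hg⟩
    · refine congrArg Finset.card (Finset.ext fun D => ?_)
      refine (Finset.mem_filter).trans (Iff.trans ?_ (Finset.mem_filter).symm)
      exact and_congr_right fun _ => (KP.famK_iff hr h28 D).trans (hcl D).symm

end Pool.Agent.Results.MP_9ab903_nt.TwistsExactProportion
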